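import Mathlib

/-!
Linear algebra used for the criterion for conjecture C.
-/

namespace Pool.Agent.Lib.MP_4ca46c_ag

open Module Polynomial

theorem exists_split {K : Type*} [Field K] (p : K[X]) (hp : p ≠ 0) :
    ∃ (u r s : K[X]) (k : ℕ), (u * X ^ (k + 1)) * (1 - u * X ^ (k + 1)) = r * p ∧
      X ^ (k + 1) = X ^ (k + 1) * (u * X ^ (k + 1)) + s * p := by
  obtain ⟨q, hq, hq0⟩ := Polynomial.exists_eq_pow_rootMultiplicity_mul_and_not_dvd p hp 0
  set k := p.rootMultiplicity 0 with hk
  rw [C_0, sub_zero] at hq hq0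
  have hcop : IsCoprime (X ^ (k + 1)) q := by
    apply IsCoprime.pow_left
    exact (Polynomial.irreducible_X.coprime_iff_not_dvd).2 hq0
  obtain ⟨u, v, huv⟩ := hcop
  refine ⟨u, u * X * v, v * X, k, ?_, ?_⟩
  · have h2 : 1 - u * X ^ (k + 1) = v * q := by linear_combination -huv
    rw [h2, hq]; ring
  · rw [hq]; linear_combination (-(X : K[X]) ^ (k + 1)) * huv

/-- An endomorphism all of whose positive powers have trace zero is nilpotent
(characteristic zero). -/
theorem isNilpotent_of_trace_pow {K V : Type*} [Field K] [CharZero K] [AddCommGroup V] [Module K V]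
    [FiniteDimensional K V] (f : Module.End K V)
    (h : ∀ m : ℕ, 0 < m → LinearMap.trace K V (f ^ m) = 0) : IsNilpotent f := by
  have hm : minpoly K f ≠ 0 := minpoly.ne_zero (Algebra.IsIntegral.isIntegral (R := K) f)
  obtain ⟨u, r, s, k, h1, h2⟩ := exists_split _ hm
  have h1' := congrArg (fun z : K[X] => aeval f z) h1
  have h2' := congrArg (fun z : K[X] => aeval f z) h2
  simp only [map_mul, map_sub, map_one, map_add, minpoly.aeval, mul_zero, add_zero] at h1' h2'
  have hid : IsIdempotentElem (aeval f u * aeval f ((X : K[X]) ^ (k + 1))) := by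
    rw [mul_sub, mul_one, sub_eq_zero] at h1'
    exact h1'.symm
  have htr : LinearMap.trace K V (aeval f u * aeval f ((X : K[X]) ^ (k + 1))) = 0 := by
    have hsum : aeval f u * aeval f ((X : K[X]) ^ (k + 1)) =
        ∑ m ∈ Finset.range (u.natDegree + 1), u.coeff m • f ^ (m + (k + 1)) := by
      rw [map_pow, aeval_X, aeval_eq_sum_range, Finset.sum_mul]
      refine Finset.sum_congr rfl fun m _ => ?_
      rw [smul_mul_assoc, ← pow_add]
    rw [hsum, map_sum]
    refine Finset.sum_eq_zero fun m _ => ?_
    rw [map_smul, h _ (by omega), smul_zero]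
  have hzero := LinearMap.IsIdempotentElem.eq_zero_of_trace_eq_zero hid htr
  refine ⟨k + 1, ?_⟩
  rw [hzero, mul_zero] at h2'
  simpa using h2'

/-- The same for a finite family of endomorphisms: it is enough that the sums of the traces
of the powers vanish. -/
theorem isNilpotent_of_sum_trace_pow {K ι : Type*} [Field K] [CharZero K] (S : Finset ι)
    (V : ι → Type*) [∀ i, AddCommGroup (V i)] [∀ i, Module K (V i)]
    [∀ i, FiniteDimensional K (V i)] (f : ∀ i, Module.End K (V i))
    (h : ∀ m : ℕ, 0 < m → ∑ i ∈ S, LinearMap.trace K (V i) (f i ^ m) = 0) :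
    ∀ i ∈ S, IsNilpotent (f i) := by
  have hm : ∏ i ∈ S, minpoly K (f i) ≠ 0 := Finset.prod_ne_zero_iff.2 fun i _ =>
    minpoly.ne_zero (Algebra.IsIntegral.isIntegral (R := K) (f i))
  obtain ⟨u, r, s, k, h1, h2⟩ := exists_split _ hm
  have hP : ∀ i ∈ S, aeval (f i) (∏ i ∈ S, minpoly K (f i)) = 0 := by
    intro i hi
    obtain ⟨c, hc⟩ := Finset.dvd_prod_of_mem (fun i => minpoly K (f i)) hi
    rw [hc, map_mul, minpoly.aeval, zero_mul]
  have hid : ∀ i ∈ S, IsIdempotentElem (aeval (f i) u * aeval (f i) ((X : K[X]) ^ (k + 1))) := by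
    intro i hi
    have h1' := congrArg (fun z : K[X] => aeval (f i) z) h1
    simp only [map_mul, map_sub, map_one, hP i hi, mul_zero] at h1'
    rw [mul_sub, mul_one, sub_eq_zero] at h1'
    exact h1'.symm
  have htr : ∑ i ∈ S, LinearMap.trace K (V i)
      (aeval (f i) u * aeval (f i) ((X : K[X]) ^ (k + 1))) = 0 := by
    have hsum : ∀ i ∈ S, LinearMap.trace K (V i)
        (aeval (f i) u * aeval (f i) ((X : K[X]) ^ (k + 1))) =
        ∑ m ∈ Finset.range (u.natDegree + 1), u.coeff m *
          LinearMap.trace K (V i) (f i ^ (m + (k + 1))) := by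
      intro i _
      rw [map_pow, aeval_X, aeval_eq_sum_range, Finset.sum_mul, map_sum]
      refine Finset.sum_congr rfl fun m _ => ?_
      rw [smul_mul_assoc, ← pow_add, map_smul, smul_eq_mul]
    rw [Finset.sum_congr rfl hsum, Finset.sum_comm]
    refine Finset.sum_eq_zero fun m _ => ?_
    rw [← Finset.mul_sum, h _ (by omega), mul_zero]
  have hrank : ∀ i ∈ S, LinearMap.trace K (V i)
      (aeval (f i) u * aeval (f i) ((X : K[X]) ^ (k + 1))) =
      ((finrank K (LinearMap.range (aeval (f i) u * aeval (f i) ((X : K[X]) ^ (k + 1)))) : ℕ) :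
        K) := fun i hi => (LinearMap.IsIdempotentElem.isProj_range _ (hid i hi)).trace
  rw [Finset.sum_congr rfl hrank, ← Nat.cast_sum, Nat.cast_eq_zero,
    Finset.sum_eq_zero_iff] at htr
  intro i hi
  have hz : aeval (f i) u * aeval (f i) ((X : K[X]) ^ (k + 1)) = 0 := by
    refine LinearMap.IsIdempotentElem.eq_zero_of_trace_eq_zero (hid i hi) ?_
    rw [hrank i hi, htr i hi, Nat.cast_zero]
  have h2' := congrArg (fun z : K[X] => aeval (f i) z) h2
  simp only [map_mul, map_add, hP i hi, mul_zero, add_zero, hz] at h2'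
  exact ⟨k + 1, by simpa using h2'⟩

theorem pow_eq_zero_of_isNilpotent {K V : Type*} [Field K] [AddCommGroup V] [Module K V]
    [FiniteDimensional K V] (f : Module.End K V) (hf : IsNilpotent f) {N : ℕ}
    (hN : finrank K V ≤ N) : f ^ N = 0 := by
  have h1 := (LinearMap.isNilpotent_iff_charpoly f).1 hf
  have h2 := f.aeval_self_charpoly
  rw [h1, map_pow, aeval_X] at h2
  exact pow_eq_zero_of_le hN h2

section Dis

variable (R : Type*) [Ring R] (V W : Type*) [AddCommGroup V] [AddCommGroup W] [Module R V]
  [Module R W]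

/-- every submodule of `V × W` is a product -/
def Dis : Prop := ∀ Γ : Submodule R (V × W), ∀ z ∈ Γ, ((z.1, 0) : V × W) ∈ Γ

variable {R V W}

theorem Dis.symm (h : Dis R V W) : Dis R W V := by
  intro Γ z hz
  let e : (V × W) →ₗ[R] (W × V) := (LinearMap.snd R V W).prod (LinearMap.fst R V W)
  have h1 := h (Γ.comap e) (z.2, z.1) (by simpa [e] using hz)
  have h2 : ((0, z.2) : W × V) ∈ Γ := by simpa [e] using h1
  have h3 : ((z.1, 0) : W × V) = z - (0, z.2) := by ext <;> simp
  rw [h3]
  exact Γ.sub_mem hz h2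

theorem Dis.pi_left (h : Dis R V W) (ι : Type*) [Fintype ι] : Dis R (ι → V) W := by
  classical
  intro Γ
  suffices H : ∀ s : Finset ι, ∀ z ∈ Γ, (∀ i ∉ s, z.1 i = 0) → ((z.1, 0) : (ι → V) × W) ∈ Γ by
    intro z hz
    exact H Finset.univ z hz (by simp)
  intro s
  induction s using Finset.induction_on with
  | empty =>
    intro z _ h0
    have : z.1 = 0 := by ext i; simpa using h0 i (by simp)
    rw [this]
    exact Γ.zero_mem
  | insert i s hi ih =>
    intro z hz h0
    -- elements of `Γ` supported on `insert i s`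
    let T : Submodule R ((ι → V) × W) :=
      { carrier := {x | ∀ j ∉ insert i s, x.1 j = 0}
        add_mem' := by
          intro a b ha hb j hj
          simp [ha j hj, hb j hj]
        zero_mem' := by intro j _; simp
        smul_mem' := by
          intro c a ha j hj
          simp [ha j hj] }
    let p : ((ι → V) × W) →ₗ[R] V × W :=
      ((LinearMap.proj i).comp (LinearMap.fst R (ι → V) W)).prod (LinearMap.snd R (ι → V) W)
    have h1 := h ((Γ ⊓ T).map p) (z.1 i, z.2) ⟨z, ⟨hz, h0⟩, rfl⟩
    obtain ⟨x, ⟨hx, hxT⟩, hx'⟩ := h1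
    have hx1 : x.1 i = z.1 i := congrArg Prod.fst hx'
    have hx2 : x.2 = 0 := congrArg Prod.snd hx'
    have h2 := ih (z - x) (Γ.sub_mem hz hx) (by
      intro j hj
      by_cases hji : j = i
      · subst hji; simp [hx1]
      · have hj' : j ∉ insert i s := by simp [hji, hj]
        have e1 := h0 j hj'
        have e2 := hxT j hj'
        simp only [Prod.fst_sub, Pi.sub_apply]
        rw [e1, e2, sub_zero])
    have h3 : ((z.1, 0) : (ι → V) × W) = ((z - x).1, 0) + x := by
      ext
      · simp
      · simp [hx2]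
    rw [h3]
    exact Γ.add_mem h2 hx

theorem Dis.pi (h : Dis R V W) (ι κ : Type*) [Fintype ι] [Fintype κ] :
    Dis R (ι → V) (κ → W) :=
  ((h.pi_left ι).symm.pi_left κ).symm

end Dis

/-- If every `B`-stable subspace of `V × W` is a product then some element of `B` acts as `1` on
`V` and as `0` on `W`. -/
theorem exists_of_disjoint {K V W B : Type*} [Field K] [AddCommGroup V] [Module K V]
    [FiniteDimensional K V] [AddCommGroup W] [Module K W] [FiniteDimensional K W] [Ring B]
    (φ : B →+* Module.End K V) (ψ : B →+* Module.End K W)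
    (hK : ∀ x : K, ∃ b : B, φ b = x • 1 ∧ ψ b = x • 1)
    (hdis : ∀ Γ : Submodule K (V × W), (∀ b : B, ∀ z ∈ Γ, ((φ b z.1, ψ b z.2) : V × W) ∈ Γ) →
      ∀ z ∈ Γ, ((z.1, 0) : V × W) ∈ Γ) :
    ∃ b : B, φ b = 1 ∧ ψ b = 0 := by
  classical
  let iV : Module B V := Module.compHom V φ
  let iW : Module B W := Module.compHom W ψ
  have hV : ∀ (b : B) (v : V), b • v = φ b v := fun _ _ => rfl
  have hW : ∀ (b : B) (w : W), b • w = ψ b w := fun _ _ => rfl
  have hD : Dis B V W := by
    intro Γ z hz
    let Γ' : Submodule K (V × W) :=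
      { carrier := Γ
        add_mem' := fun ha hb => Γ.add_mem ha hb
        zero_mem' := Γ.zero_mem
        smul_mem' := by
          intro x a ha
          obtain ⟨b, hb1, hb2⟩ := hK x
          have := Γ.smul_mem b ha
          have e : b • a = x • a := by
            ext
            · change φ b a.1 = x • a.1
              rw [hb1]; simp
            · change ψ b a.2 = x • a.2
              rw [hb2]; simp
          rwa [e] at this }
    exact hdis Γ' (fun b y hy => Γ.smul_mem b hy) z hz
  let v := Module.finBasis K V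
  let w := Module.finBasis K W
  have hP := hD.pi (Fin (finrank K V)) (Fin (finrank K W))
  have h1 := hP (Submodule.span B {((fun i => v i, fun i => w i) :
    (Fin (finrank K V) → V) × (Fin (finrank K W) → W))}) _
    (Submodule.mem_span_singleton_self _)
  obtain ⟨b, hb⟩ := Submodule.mem_span_singleton.1 h1
  refine ⟨b, ?_, ?_⟩
  · refine v.ext fun i => ?_
    have := congrFun (congrArg Prod.fst hb) i
    exact this
  · refine w.ext fun i => ?_
    have := congrFun (congrArg Prod.snd hb) i
    exact this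

end Pool.Agent.Lib.MP_4ca46c_ag
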